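import Pool.Agent.Y75.NK.Thm
import Pool.Agent.V5helper31.UT.Diag

/-!
# Idempotent matrices over group rings of directed colimits of groups
-/

set_option autoImplicit false
set_option linter.unusedSectionVars false

namespace Pool.Agent.V5helper31.NU

open CategoryTheory Pool.Agent.Y75.NK

/-- directed colimits of groups, in terms of elements -/
structure Good {I : Type} [Preorder I] (D : I ⥤ GrpCat.{0}) (G : GrpCat.{0})
    (t : ∀ i, D.obj i ⟶ G) : Prop where
  w : ∀ {i j : I} (f : i ⟶ j), D.map f ≫ t j = t i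
  surj : ∀ x : G, ∃ (i : I) (y : D.obj i), (t i).hom y = x
  inj : ∀ (i : I) (y z : D.obj i), (t i).hom y = (t i).hom z →
    ∃ (j : I) (f : i ⟶ j), (D.map f).hom y = (D.map f).hom z

variable {I : Type} [Preorder I]

lemma good_tz {D : I ⥤ GrpCat.{0}} {G : GrpCat.{0}} {t : ∀ i, D.obj i ⟶ G} (h : Good D G t) :
    Good (D ⋙ tz) (tz.obj G) (fun i => tz.map (t i)) where
  w f := by
    rw [Functor.comp_map, ← tz.map_comp, h.w f]
  surj x := by
    obtain ⟨n, g⟩ := x
    obtain ⟨i, y, hy⟩ := h.surj g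
    exact ⟨i, (n, y), Prod.ext rfl hy⟩
  inj i y z hyz := by
    obtain ⟨n, y⟩ := y
    obtain ⟨m, z⟩ := z
    have h1 : n = m := congrArg Prod.fst hyz
    have h2 : (t i).hom y = (t i).hom z := congrArg Prod.snd hyz
    obtain ⟨j, f, hf⟩ := h.inj i y z h2
    exact ⟨j, f, Prod.ext h1 hf⟩

lemma good_EF : ∀ (m : ℕ) {D : I ⥤ GrpCat.{0}} {G : GrpCat.{0}} {t : ∀ i, D.obj i ⟶ G},
    Good D G t → Good (D ⋙ EF m) ((EF m).obj G) (fun i => (EF m).map (t i))
  | 0, _, _, _, h => h
  | m + 1, _, _, _, h => good_EF m (good_tz h)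

variable {D : I ⥤ GrpCat.{0}} {G : GrpCat.{0}} {t : ∀ i, D.obj i ⟶ G} (h : Good D G t)
  (R : Type) [Ring R]

include h

lemma gr_w {i j : I} (f : i ⟶ j) (y : (gr R).obj (D.obj i)) :
    ((gr R).map (t j)).hom (((gr R).map (D.map f)).hom y) = ((gr R).map (t i)).hom y := by
  rw [← h.w f, (gr R).map_comp]
  rfl

variable [IsDirectedOrder I] [Nonempty I]

lemma lift_elem (x : (gr R).obj G) :
    ∃ (i : I) (y : (gr R).obj (D.obj i)), ((gr R).map (t i)).hom y = x := by
  change MonoidAlgebra R G at x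
  induction x using MonoidAlgebra.induction_linear with
  | zero => exact ⟨Classical.arbitrary I, 0, map_zero _⟩
  | add x x' hx hx' =>
    obtain ⟨i, y, hy⟩ := hx
    obtain ⟨j, z, hz⟩ := hx'
    obtain ⟨k, hik, hjk⟩ := exists_ge_ge i j
    refine ⟨k, ((gr R).map (D.map (homOfLE hik))).hom y +
      ((gr R).map (D.map (homOfLE hjk))).hom z, ?_⟩
    rw [map_add, gr_w h, gr_w h, hy, hz]
    rfl
  | single g r =>
    obtain ⟨i, y, hy⟩ := h.surj g
    refine ⟨i, MonoidAlgebra.single y r, ?_⟩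
    change MonoidAlgebra.mapDomain _ _ = _
    rw [MonoidAlgebra.mapDomain_single]
    exact congrArg (fun z => MonoidAlgebra.single z r) hy

lemma zero_elem (i : I) (y : (gr R).obj (D.obj i)) (hy : ((gr R).map (t i)).hom y = 0) :
    ∃ (j : I) (f : i ⟶ j), ((gr R).map (D.map f)).hom y = 0 := by
  classical
  change MonoidAlgebra R (D.obj i) at y
  let S := y.coeff.support
  -- one index identifies all pairs in the support
  have h1 : ∀ p : {p : S × S // (t i).hom p.1.1 = (t i).hom p.2.1}, ∃ (j : I) (f : i ⟶ j),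
      (D.map f).hom p.1.1.1 = (D.map f).hom p.1.2.1 := fun p => h.inj i _ _ p.2
  choose j f hf using h1
  obtain ⟨M, hM⟩ := Finite.exists_le j
  obtain ⟨k, hik, hMk⟩ := exists_ge_ge i M
  refine ⟨k, homOfLE hik, ?_⟩
  have h2 : ∀ a ∈ S, ∀ b ∈ S, (t i).hom a = (t i).hom b →
      (D.map (homOfLE hik)).hom a = (D.map (homOfLE hik)).hom b := by
    intro a ha b hb hab
    let p : {p : S × S // (t i).hom p.1.1 = (t i).hom p.2.1} := ⟨(⟨a, ha⟩, ⟨b, hb⟩), hab⟩
    have h3 : homOfLE hik = f p ≫ homOfLE ((hM p).trans hMk) := Subsingleton.elim _ _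
    rw [h3, D.map_comp]
    exact congrArg (D.map (homOfLE ((hM p).trans hMk))).hom (hf p)
  -- the image is injective on the support
  let y' : MonoidAlgebra R (D.obj k) := MonoidAlgebra.mapDomain (D.map (homOfLE hik)).hom y
  change y' = 0
  have h4 : MonoidAlgebra.mapDomain (t k).hom y' = 0 := by
    have := gr_w h R (homOfLE hik) y
    rw [hy] at this
    exact this
  let S' : Set (D.obj k) := (D.map (homOfLE hik)).hom '' (S : Set (D.obj i))
  have h5 : Set.InjOn (t k).hom S' := by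
    rintro _ ⟨a, ha, rfl⟩ _ ⟨b, hb, rfl⟩ hab
    have h6 : ∀ c, (t k).hom ((D.map (homOfLE hik)).hom c) = (t i).hom c := by
      intro c
      rw [← h.w (homOfLE hik)]
      rfl
    rw [h6, h6] at hab
    exact h2 a ha b hb hab
  have h7 : ((y'.coeff.support : Finset (D.obj k)) : Set (D.obj k)) ⊆ S' := by
    intro c hc
    have h8 : c ∈ (Finsupp.mapDomain (D.map (homOfLE hik)).hom y.coeff).support := hc
    have h9 := Finsupp.mapDomain_support h8
    rw [Finset.mem_image] at h9
    obtain ⟨a, ha, rfl⟩ := h9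
    exact ⟨a, ha, rfl⟩
  have h8 := Finsupp.mapDomain_injOn (M := R) S' h5 (show y'.coeff ∈ _ from h7)
    (show (0 : D.obj k →₀ R) ∈ _ by simp) (by
      rw [Finsupp.mapDomain_zero]
      exact congrArg MonoidAlgebra.coeff h4)
  exact MonoidAlgebra.coeff_injective h8

lemma lift_fam {ι : Type} [Finite ι] (x : ι → (gr R).obj G) :
    ∃ (i : I) (y : ι → (gr R).obj (D.obj i)), ∀ a, ((gr R).map (t i)).hom (y a) = x a := by
  have h1 := fun a => lift_elem h R (x a)
  choose j y hy using h1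
  obtain ⟨M, hM⟩ := Finite.exists_le j
  refine ⟨M, fun a => ((gr R).map (D.map (homOfLE (hM a)))).hom (y a), fun a => ?_⟩
  rw [gr_w h, hy]

lemma zero_fam {ι : Type} [Finite ι] (i : I) (y : ι → (gr R).obj (D.obj i))
    (hy : ∀ a, ((gr R).map (t i)).hom (y a) = 0) :
    ∃ (j : I) (f : i ⟶ j), ∀ a, ((gr R).map (D.map f)).hom (y a) = 0 := by
  have h1 := fun a => zero_elem h R i (y a) (hy a)
  choose j f hf using h1
  obtain ⟨M, hM⟩ := Finite.exists_le j
  obtain ⟨k, hik, hMk⟩ := exists_ge_ge i M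
  refine ⟨k, homOfLE hik, fun a => ?_⟩
  have h3 : homOfLE hik = f a ≫ homOfLE ((hM a).trans hMk) := Subsingleton.elim _ _
  rw [h3, D.map_comp, (gr R).map_comp]
  exact (congrArg ((gr R).map (D.map (homOfLE ((hM a).trans hMk)))).hom (hf a)).trans (map_zero _)

/-- idempotent matrices lift -/
lemma lift_idem (e : Idem ((gr R).obj G)) :
    ∃ (i : I) (e' : Idem ((gr R).obj (D.obj i))), e'.map ((gr R).map (t i)).hom = e := by
  obtain ⟨n, e, he⟩ := e
  obtain ⟨i, y, hy⟩ := lift_fam h R (fun p : Fin n × Fin n => e p.1 p.2)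
  let E : Matrix (Fin n) (Fin n) ((gr R).obj (D.obj i)) := Matrix.of fun a b => y (a, b)
  have hE : E.map ((gr R).map (t i)).hom = e := by
    ext a b
    exact hy (a, b)
  obtain ⟨j, f, hf⟩ := zero_fam h R i
    (fun p : Fin n × Fin n => (E * E - E) p.1 p.2) (by
      intro p
      have h1 : (E * E - E).map ((gr R).map (t i)).hom = 0 := by
        rw [Matrix.map_sub _ (map_sub _), Matrix.map_mul, hE, he, sub_self]
      exact congrFun (congrFun h1 p.1) p.2)
  refine ⟨j, ⟨n, E.map ((gr R).map (D.map f)).hom, ?_⟩, ?_⟩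
  · rw [← Matrix.map_mul, ← sub_eq_zero, ← Matrix.map_sub _ (map_sub _)]
    ext a b
    exact hf (a, b)
  · unfold Idem.map
    congr 1
    ext a b
    change ((gr R).map (t j)).hom (((gr R).map (D.map f)).hom (E a b)) = e a b
    rw [gr_w h]
    exact hy (a, b)

end Pool.Agent.V5helper31.NU
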