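import Pool.Agent.V5helper31.NU.Lift
import Pool.Agent.V5helper31.UT.Main

/-!
# Negative K-groups of group rings of torsion-free groups: one group and one degree
-/

set_option autoImplicit false
set_option linter.unusedSectionVars false

namespace Pool.Agent.V5helper31.NU

open CategoryTheory Pool.Agent.Y75.NK Pool.Agent.V5helper31.UT

section stage

variable {I : Type} [Preorder I] {D : I ⥤ GrpCat.{0}} {G : GrpCat.{0}} {t : ∀ i, D.obj i ⟶ G}
  (h : Good D G t) (R : Type) [Ring R] [IsDirectedOrder I] [Nonempty I]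

include h

lemma kclass_stage (m : ℕ) (e : Idem (MonoidAlgebra R ((EF m).obj G))) :
    ∃ (i : I) (x : (gr R ⋙ Kneg m).obj (D.obj i)),
      ((gr R ⋙ Kneg m).map (t i)).hom x = kclass R m G e := by
  obtain ⟨i, e', he⟩ := lift_idem (good_EF m h) R e
  refine ⟨i, kclass R m (D.obj i) e', ?_⟩
  have h1 := congrArg (fun z => z.hom (cls e')) ((kclT R m).naturality (t i))
  refine h1.symm.trans ?_
  change ((kclT R m).app G).hom (K0.map ((gr R).map ((EF m).map (t i))).hom (cls e')) = _
  rw [K0.map_cls, he]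
  rfl

lemma kneg_stage (m : ℕ) (x : (gr R ⋙ Kneg m).obj G) :
    ∃ (i : I) (y : (gr R ⋙ Kneg m).obj (D.obj i)), ((gr R ⋙ Kneg m).map (t i)).hom y = x := by
  obtain ⟨e, f, hx⟩ := kclass_generate R m G x
  obtain ⟨i, y, hy⟩ := kclass_stage h R m e
  obtain ⟨j, z, hz⟩ := kclass_stage h R m f
  obtain ⟨k, hik, hjk⟩ := exists_ge_ge i j
  have h1 : ∀ {i j : I} (f : i ⟶ j) (y : (gr R ⋙ Kneg m).obj (D.obj i)),
      ((gr R ⋙ Kneg m).map (t j)).hom (((gr R ⋙ Kneg m).map (D.map f)).hom y) =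
        ((gr R ⋙ Kneg m).map (t i)).hom y := by
    intro i j f y
    rw [← h.w f, (gr R ⋙ Kneg m).map_comp]
    rfl
  refine ⟨k, ((gr R ⋙ Kneg m).map (D.map (homOfLE hik))).hom y -
    ((gr R ⋙ Kneg m).map (D.map (homOfLE hjk))).hom z, ?_⟩
  rw [map_sub, h1, h1, hy, hz]
  exact hx.symm

end stage

lemma good_dia {G : Type} [Group G] (hG : TorsionFree G) :
    Good (dia (G := G)) (GrpCat.of G) (fun i => GrpCat.ofHom (toG hG i)) where
  w f := (coc hG).w f
  surj x := toG_surj hG x
  inj i y z hyz := by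
    obtain ⟨j, hij, h⟩ := toG_inj hG i y z hyz
    exact ⟨j, homOfLE hij, h⟩

/-- one degree -/
theorem one_degree (R : Type) [Ring R] (m : ℕ)
    (hU : Subsingleton ((Kneg m).obj ((gr R).obj (GrpCat.of (ULift.{0} UU))))) (G : Type) [Group G]
    (hG : TorsionFree G) : Subsingleton ((Kneg m).obj ((gr R).obj (GrpCat.of G))) := by
  refine subsingleton_of_forall_eq 0 fun x => ?_
  obtain ⟨i, y, hy⟩ := kneg_stage (good_dia hG) R m x
  obtain ⟨a, b, hab⟩ := exists_retract (i.R : Set (FreeGroup i.S)) i.R.finite_toSet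
  have hcomp : GrpCat.ofHom a ≫ GrpCat.ofHom b = 𝟙 (GrpCat.of (GI i)) :=
    GrpCat.hom_ext (MonoidHom.ext hab)
  have h1 := map_retract (GrpCat.ofHom a) (GrpCat.ofHom b) hcomp (gr R ⋙ Kneg m) y
  have h2 : (gr R ⋙ Kneg m).map (GrpCat.ofHom a) y = 0 := @Subsingleton.elim _ hU _ _
  rw [h2, map_zero] at h1
  rw [← hy, ← h1]
  exact map_zero _

/-- from degree `-m` to degree `-(m + 1)` -/
theorem next_degree (R : Type) [Ring R] (m : ℕ)
    (h : ∀ (G : Type) [Group G], TorsionFree G →
      Subsingleton ((Kneg m).obj ((gr R).obj (GrpCat.of G)))) (G : Type) [Group G]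
    (hG : TorsionFree G) : Subsingleton ((Kneg (m + 1)).obj ((gr R).obj (GrpCat.of G))) := by
  have hZ : TorsionFree (Multiplicative ℤ × G) := by
    rintro ⟨a, g⟩ n hn hag
    have h1 : a ^ n = 1 := congrArg Prod.fst hag
    have h2 : g ^ n = 1 := congrArg Prod.snd hag
    refine Prod.ext ?_ (hG g n hn h2)
    have h3 : n • a.toAdd = 0 := congrArg Multiplicative.toAdd h1
    rw [smul_eq_zero] at h3
    rcases h3 with h3 | h3
    · omega
    · exact congrArg Multiplicative.ofAdd h3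
  have h1 : Subsingleton ((Kneg m).obj ((gr R).obj (tz.obj (GrpCat.of G)))) :=
    h (Multiplicative ℤ × G) hZ
  let e := (Kneg m).mapIso ((cur R).app (GrpCat.of G))
  have h2 : Subsingleton ((Kneg m).obj ((gr R ⋙ monF (Multiplicative ℤ)).obj (GrpCat.of G))) := by
    refine ⟨fun x y => ?_⟩
    have h3 : ∀ z, e.inv.hom (e.hom.hom z) = z := fun z =>
      congrArg (fun q => q.hom z) e.hom_inv_id
    rw [← h3 x, ← h3 y]
    exact congrArg e.inv.hom (@Subsingleton.elim _ h1 _ _)
  refine subsingleton_of_forall_eq 0 fun x => ?_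
  obtain ⟨y, rfl⟩ := QuotientAddGroup.mk'_surjective _ x
  have h3 : y = 0 := @Subsingleton.elim _ h2 _ _
  rw [h3]
  exact map_zero _

theorem all_degrees (R : Type) [Ring R]
    (hU : Subsingleton ((Kneg 1).obj ((gr R).obj (GrpCat.of (ULift.{0} UU))))) (m : ℕ)
    (hm : 1 ≤ m) : ∀ (G : Type) [Group G], TorsionFree G →
      Subsingleton ((Kneg m).obj ((gr R).obj (GrpCat.of G))) := by
  induction m, hm using Nat.le_induction with
  | base => exact fun G _ hG => one_degree R 1 hU G hG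
  | succ m _ ih => exact fun G _ hG => next_degree R m ih G hG

end Pool.Agent.V5helper31.NU
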